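import Mathlib

/-!
# The 5/6 question for polyamorous scheduling

There are instances `(P, R, f)` of polyamorous scheduling that admit no feasible schedule and whose
poly density is as close to `3/4` as we please; in particular the poly density `5/6` does not
guarantee schedulability.

The instances: the bull graph, i.e. the triangle `0 1 2` with a pendant edge `0 3` at `0` and a
pendant edge `1 4` at `1`. The frequencies are `2` on the pendant edges, `4` on `0 2` and `1 2`, and
an arbitrarily large `N` on `0 1`. On a day on which `0 1` is scheduled neither pendant edge is;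
so both pendant edges are scheduled on the day before and on the day after. On these three days
neither `0 2` nor `1 2` is scheduled, so both must be scheduled two days before. They share the
vertex `2`, a contradiction.
-/

set_option autoImplicit false

namespace Pool.Agent.Results.MP_90a930_lc.PolyDensityThreshold

section Defs

variable {V : Type*} (G : SimpleGraph V)

/-- A set `M` of edges of the graph `G` is a matching: no two different edges in `M` share a
vertex. -/
def IsMatching (M : Set G.edgeSet) : Prop :=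
  ∀ e ∈ M, ∀ e' ∈ M, e ≠ e' → ∀ v : V, ¬ (v ∈ (e : Sym2 V) ∧ v ∈ (e' : Sym2 V))

/-- `S` is a feasible schedule of the instance `(V, G, f)`: on every day `t` the set `S t` is a
matching, and every edge `e` appears in every window of `f e` consecutive days. -/
def IsFeasible (f : G.edgeSet → ℕ) (S : ℕ → Set G.edgeSet) : Prop :=
  (∀ t, IsMatching G (S t)) ∧ ∀ e, ∀ t, ∃ i < f e, e ∈ S (t + i)

/-- The instance `(V, G, f)` is schedulable. -/
def Schedulable (f : G.edgeSet → ℕ) : Prop := ∃ S, IsFeasible G f S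

/-- `z` is a weighting: `z : R → [0, 1]` with sum `1`. -/
def IsWeighting [Fintype G.edgeSet] (z : G.edgeSet → ℝ) : Prop :=
  (∀ e, 0 ≤ z e ∧ z e ≤ 1) ∧ ∑ e, z e = 1

/-- The value `max_M ∑_{e ∈ M} z_e f_e`, over the inclusion-maximal matchings `M`, is `s`. -/
def IsMaxWeight [Fintype G.edgeSet] (f : G.edgeSet → ℕ) (z : G.edgeSet → ℝ) (s : ℝ) : Prop :=
  IsGreatest {s : ℝ | ∃ M : Finset G.edgeSet, Maximal (IsMatching G) (M : Set G.edgeSet) ∧
    s = ∑ e ∈ M, z e * (f e : ℝ)} s

/-- The poly density of `(V, G, f)`, `max_z 1 / (max_M ∑_{e ∈ M} z_e f_e)`, is `d`; here `z` ranges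
over the weightings and `M` over the inclusion-maximal matchings. -/
def IsPolyDensity [Fintype G.edgeSet] (f : G.edgeSet → ℕ) (d : ℝ) : Prop :=
  IsGreatest {r : ℝ | ∃ z s, IsWeighting G z ∧ IsMaxWeight G f z s ∧ r = 1 / s} d

end Defs

/-- The bull graph. -/
def bull : SimpleGraph (Fin 5) :=
  SimpleGraph.fromEdgeSet {s(0, 1), s(0, 2), s(1, 2), s(0, 3), s(1, 4)}

theorem edgeSet_bull : bull.edgeSet = {s(0, 1), s(0, 2), s(1, 2), s(0, 3), s(1, 4)} := by
  rw [bull, SimpleGraph.edgeSet_fromEdgeSet]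
  ext e
  simp only [Set.mem_sdiff, Set.mem_insert_iff, Set.mem_singleton_iff, Sym2.mem_diagSet]
  constructor
  · exact fun h => h.1
  · intro h
    refine ⟨h, ?_⟩
    rcases h with h | h | h | h | h <;> subst h <;> simp

/-- The frequencies. -/
def freq (N : ℕ) (e : bull.edgeSet) : ℕ :=
  if (e : Sym2 (Fin 5)) = s(0, 1) then N
  else if (e : Sym2 (Fin 5)) = s(0, 3) ∨ (e : Sym2 (Fin 5)) = s(1, 4) then 2 else 4

def e01 : bull.edgeSet := ⟨s(0, 1), by rw [edgeSet_bull]; simp⟩
def e02 : bull.edgeSet := ⟨s(0, 2), by rw [edgeSet_bull]; simp⟩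
def e12 : bull.edgeSet := ⟨s(1, 2), by rw [edgeSet_bull]; simp⟩
def e03 : bull.edgeSet := ⟨s(0, 3), by rw [edgeSet_bull]; simp⟩
def e14 : bull.edgeSet := ⟨s(1, 4), by rw [edgeSet_bull]; simp⟩

theorem cases_edge (e : bull.edgeSet) : e = e01 ∨ e = e02 ∨ e = e12 ∨ e = e03 ∨ e = e14 := by
  obtain ⟨e, he⟩ := e
  rw [edgeSet_bull] at he
  simp only [Set.mem_insert_iff, Set.mem_singleton_iff] at he
  simpa [e01, e02, e12, e03, e14, Subtype.ext_iff] using he

theorem freq01 (N : ℕ) : freq N e01 = N := by simp [freq, e01]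
theorem freq02 (N : ℕ) : freq N e02 = 4 := by
  have h1 : (s(0, 2) : Sym2 (Fin 5)) ≠ s(0, 1) := by decide
  have h2 : (s(0, 2) : Sym2 (Fin 5)) ≠ s(0, 3) := by decide
  have h3 : (s(0, 2) : Sym2 (Fin 5)) ≠ s(1, 4) := by decide
  simp only [freq, e02, if_neg h1, h2, h3, or_self, if_false]
theorem freq12 (N : ℕ) : freq N e12 = 4 := by
  have h1 : (s(1, 2) : Sym2 (Fin 5)) ≠ s(0, 1) := by decide
  have h2 : (s(1, 2) : Sym2 (Fin 5)) ≠ s(0, 3) := by decide
  have h3 : (s(1, 2) : Sym2 (Fin 5)) ≠ s(1, 4) := by decide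
  simp only [freq, e12, if_neg h1, h2, h3, or_self, if_false]
theorem freq03 (N : ℕ) : freq N e03 = 2 := by
  have h1 : (s(0, 3) : Sym2 (Fin 5)) ≠ s(0, 1) := by decide
  simp only [freq, e03, if_neg h1, true_or, if_true]
theorem freq14 (N : ℕ) : freq N e14 = 2 := by
  have h1 : (s(1, 4) : Sym2 (Fin 5)) ≠ s(0, 1) := by decide
  simp only [freq, e14, if_neg h1, or_true, if_true]

theorem not_both {M : Set bull.edgeSet} (hM : IsMatching bull M) {e e' : bull.edgeSet} (v : Fin 5)
    (hne : e ≠ e') (hv : v ∈ (e : Sym2 (Fin 5))) (hv' : v ∈ (e' : Sym2 (Fin 5)))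
    (he : e ∈ M) : e' ∉ M := fun he' => hM e he e' he' hne v ⟨hv, hv'⟩

theorem ne_of_val {e e' : bull.edgeSet} (h : (e : Sym2 (Fin 5)) ≠ e') : e ≠ e' :=
  fun h' => h (congrArg _ h')

theorem not_schedulable (N : ℕ) : ¬ Schedulable bull (freq N) := by
  rintro ⟨S, hS, hf⟩
  obtain ⟨i, -, hi⟩ := hf e01 2
  obtain ⟨t, ht⟩ : ∃ t, t + 2 = 2 + i := ⟨i, by omega⟩
  rw [← ht] at hi
  have two : ∀ e : bull.edgeSet, freq N e = 2 → ∀ s, e ∈ S s ∨ e ∈ S (s + 1) := by
    intro e he s
    obtain ⟨j, hj, hj'⟩ := hf e s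
    rw [he] at hj
    interval_cases j
    · exact Or.inl hj'
    · exact Or.inr hj'
  have a1 : e03 ∉ S (t + 2) := not_both (hS _) 0 (ne_of_val (by decide)) (by decide) (by decide) hi
  have a2 : e14 ∉ S (t + 2) := not_both (hS _) 1 (ne_of_val (by decide)) (by decide) (by decide) hi
  have a3 : e02 ∉ S (t + 2) := not_both (hS _) 0 (ne_of_val (by decide)) (by decide) (by decide) hi
  have a4 : e12 ∉ S (t + 2) := not_both (hS _) 1 (ne_of_val (by decide)) (by decide) (by decide) hi
  have b1 : e03 ∈ S (t + 1) := (two _ (freq03 N) (t + 1)).resolve_right a1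
  have b2 : e14 ∈ S (t + 1) := (two _ (freq14 N) (t + 1)).resolve_right a2
  have b3 : e03 ∈ S (t + 3) := (two _ (freq03 N) (t + 2)).resolve_left a1
  have b4 : e14 ∈ S (t + 3) := (two _ (freq14 N) (t + 2)).resolve_left a2
  have c1 : e02 ∉ S (t + 1) := not_both (hS _) 0 (ne_of_val (by decide)) (by decide) (by decide) b1
  have c2 : e12 ∉ S (t + 1) := not_both (hS _) 1 (ne_of_val (by decide)) (by decide) (by decide) b2
  have c3 : e02 ∉ S (t + 3) := not_both (hS _) 0 (ne_of_val (by decide)) (by decide) (by decide) b3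
  have c4 : e12 ∉ S (t + 3) := not_both (hS _) 1 (ne_of_val (by decide)) (by decide) (by decide) b4
  have d1 : e02 ∈ S t := by
    obtain ⟨j, hj, hj'⟩ := hf e02 t
    rw [freq02] at hj
    interval_cases j
    · exact hj'
    · exact absurd hj' c1
    · exact absurd hj' a3
    · exact absurd hj' c3
  have d2 : e12 ∈ S t := by
    obtain ⟨j, hj, hj'⟩ := hf e12 t
    rw [freq12] at hj
    interval_cases j
    · exact hj'
    · exact absurd hj' c2
    · exact absurd hj' a4
    · exact absurd hj' c4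
  exact not_both (hS _) 2 (ne_of_val (by decide)) (by decide) (by decide) d1 d2

noncomputable instance : Fintype bull.edgeSet := Fintype.ofFinite _

theorem pairwise_ne : e01 ≠ e02 ∧ e01 ≠ e12 ∧ e01 ≠ e03 ∧ e01 ≠ e14 ∧ e02 ≠ e12 ∧ e02 ≠ e03 ∧
    e02 ≠ e14 ∧ e12 ≠ e03 ∧ e12 ≠ e14 ∧ e03 ≠ e14 := by
  refine ⟨?_, ?_, ?_, ?_, ?_, ?_, ?_, ?_, ?_, ?_⟩ <;> exact ne_of_val (by decide)

theorem sum_edges (g : bull.edgeSet → ℝ) :
    ∑ e, g e = g e01 + g e02 + g e12 + g e03 + g e14 := by
  classical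
  obtain ⟨h1, h2, h3, h4, h5, h6, h7, h8, h9, h10⟩ := pairwise_ne
  have hu : (Finset.univ : Finset bull.edgeSet) = {e01, e02, e12, e03, e14} := by
    ext e
    simp only [Finset.mem_univ, Finset.mem_insert, Finset.mem_singleton, true_iff]
    exact cases_edge e
  rw [hu, Finset.sum_insert, Finset.sum_insert, Finset.sum_insert, Finset.sum_insert,
    Finset.sum_singleton]
  · ring
  all_goals simp_all

/-- `M` is a maximal matching if it is a matching and every edge outside `M` shares a vertex with an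
edge in `M`. -/
theorem maximal_of {M : Set bull.edgeSet} (hM : IsMatching bull M)
    (h : ∀ e, e ∉ M → ∃ e' ∈ M, ∃ v : Fin 5, v ∈ (e : Sym2 (Fin 5)) ∧ v ∈ (e' : Sym2 (Fin 5))) :
    Maximal (IsMatching bull) M := by
  refine ⟨hM, fun M' hM' hle e he => ?_⟩
  by_contra hne
  obtain ⟨e', he', v, hv, hv'⟩ := h e hne
  exact hM' e he e' (hle he') (fun h => hne (h ▸ he')) v ⟨hv, hv'⟩

theorem max01 : Maximal (IsMatching bull) (({e01} : Finset bull.edgeSet) : Set bull.edgeSet) := by
  refine maximal_of ?_ ?_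
  · intro e he e' he' hne
    simp only [Finset.coe_singleton, Set.mem_singleton_iff] at he he'
    exact absurd (he.trans he'.symm) hne
  · intro e he
    refine ⟨e01, by simp, ?_⟩
    rcases cases_edge e with h | h | h | h | h <;> subst h
    · simp at he
    · exact ⟨0, by decide, by decide⟩
    · exact ⟨1, by decide, by decide⟩
    · exact ⟨0, by decide, by decide⟩
    · exact ⟨1, by decide, by decide⟩

theorem max_pair [DecidableEq bull.edgeSet] {a b : bull.edgeSet}
    (hab : ∀ v : Fin 5, ¬ (v ∈ (a : Sym2 (Fin 5)) ∧ v ∈ (b : Sym2 (Fin 5))))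
    (h : ∀ e : bull.edgeSet, e ≠ a → e ≠ b → (∃ v : Fin 5, v ∈ (e : Sym2 (Fin 5)) ∧
      v ∈ (a : Sym2 (Fin 5))) ∨ ∃ v : Fin 5, v ∈ (e : Sym2 (Fin 5)) ∧ v ∈ (b : Sym2 (Fin 5))) :
    Maximal (IsMatching bull) (({a, b} : Finset bull.edgeSet) : Set bull.edgeSet) := by
  refine maximal_of ?_ ?_
  · intro e he e' he' hne v
    simp only [Finset.coe_insert, Finset.coe_singleton, Set.mem_insert_iff,
      Set.mem_singleton_iff] at he he'
    rcases he with rfl | rfl <;> rcases he' with rfl | rfl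
    · exact absurd rfl hne
    · exact hab v
    · exact fun h => hab v ⟨h.2, h.1⟩
    · exact absurd rfl hne
  · intro e he
    simp only [Finset.coe_insert, Finset.coe_singleton, Set.mem_insert_iff,
      Set.mem_singleton_iff, not_or] at he
    rcases h e he.1 he.2 with h | h
    · exact ⟨a, by simp, h⟩
    · exact ⟨b, by simp, h⟩

theorem max0314 [DecidableEq bull.edgeSet] :
    Maximal (IsMatching bull) (({e03, e14} : Finset bull.edgeSet) : Set bull.edgeSet) := by
  refine max_pair (by decide) ?_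
  intro e h1 h2
  rcases cases_edge e with h | h | h | h | h <;> subst h
  · exact Or.inl ⟨0, by decide, by decide⟩
  · exact Or.inl ⟨0, by decide, by decide⟩
  · exact Or.inr ⟨1, by decide, by decide⟩
  · exact absurd rfl h1
  · exact absurd rfl h2

theorem max0214 [DecidableEq bull.edgeSet] :
    Maximal (IsMatching bull) (({e02, e14} : Finset bull.edgeSet) : Set bull.edgeSet) := by
  refine max_pair (by decide) ?_
  intro e h1 h2
  rcases cases_edge e with h | h | h | h | h <;> subst h
  · exact Or.inl ⟨0, by decide, by decide⟩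
  · exact absurd rfl h1
  · exact Or.inl ⟨2, by decide, by decide⟩
  · exact Or.inl ⟨0, by decide, by decide⟩
  · exact absurd rfl h2

theorem max1203 [DecidableEq bull.edgeSet] :
    Maximal (IsMatching bull) (({e12, e03} : Finset bull.edgeSet) : Set bull.edgeSet) := by
  refine max_pair (by decide) ?_
  intro e h1 h2
  rcases cases_edge e with h | h | h | h | h <;> subst h
  · exact Or.inl ⟨1, by decide, by decide⟩
  · exact Or.inl ⟨2, by decide, by decide⟩
  · exact absurd rfl h1
  · exact absurd rfl h2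
  · exact Or.inl ⟨1, by decide, by decide⟩

theorem upper {N : ℕ} (hN : 1 ≤ N) {z : bull.edgeSet → ℝ} {s : ℝ} (hz : IsWeighting bull z)
    (hs : IsMaxWeight bull (freq N) z s) : 1 ≤ (3 / 4 + 1 / (N : ℝ)) * s := by
  classical
  obtain ⟨-, h4, -, -, -, -, h7, h8, -, h10⟩ := pairwise_ne
  have hN' : (0 : ℝ) < N := by exact_mod_cast hN
  have k1 := hs.2 ⟨{e01}, max01, rfl⟩
  have k2 := hs.2 ⟨{e03, e14}, max0314, rfl⟩
  have k3 := hs.2 ⟨{e02, e14}, max0214, rfl⟩
  have k4 := hs.2 ⟨{e12, e03}, max1203, rfl⟩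
  rw [Finset.sum_singleton, freq01] at k1
  rw [Finset.sum_pair h10, freq03, freq14] at k2
  rw [Finset.sum_pair h7, freq02, freq14] at k3
  rw [Finset.sum_pair h8, freq12, freq03] at k4
  have hsum := hz.2
  rw [sum_edges] at hsum
  have k1' : z e01 ≤ 1 / (N : ℝ) * s := by
    rw [one_div, inv_mul_eq_div, le_div_iff₀ hN']
    exact k1
  push_cast at k2 k3 k4
  nlinarith

/-- The weighting concentrated on the edges at the vertex `0`. -/
noncomputable def wt (N : ℕ) (e : bull.edgeSet) : ℝ :=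
  if (0 : Fin 5) ∈ (e : Sym2 (Fin 5)) then (1 / (freq N e : ℝ)) / (3 / 4 + 1 / (N : ℝ)) else 0

theorem isPolyDensity {N : ℕ} (hN : 1 ≤ N) :
    IsPolyDensity bull (freq N) (3 / 4 + 1 / (N : ℝ)) := by
  classical
  have hN' : (0 : ℝ) < N := by exact_mod_cast hN
  have hD : (0 : ℝ) < 3 / 4 + 1 / (N : ℝ) := by positivity
  have hf : ∀ e, (0 : ℝ) < freq N e := by
    intro e
    rcases cases_edge e with h | h | h | h | h <;> subst h
    · rw [freq01]; exact hN'
    · rw [freq02]; norm_num
    · rw [freq12]; norm_num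
    · rw [freq03]; norm_num
    · rw [freq14]; norm_num
  have hwt : IsWeighting bull (wt N) := by
    have hsum : ∑ e, wt N e = 1 := by
      have m1 : (0 : Fin 5) ∈ (e01 : Sym2 (Fin 5)) := by decide
      have m2 : (0 : Fin 5) ∈ (e02 : Sym2 (Fin 5)) := by decide
      have m3 : (0 : Fin 5) ∉ (e12 : Sym2 (Fin 5)) := by decide
      have m4 : (0 : Fin 5) ∈ (e03 : Sym2 (Fin 5)) := by decide
      have m5 : (0 : Fin 5) ∉ (e14 : Sym2 (Fin 5)) := by decide
      rw [sum_edges]
      simp only [wt, m1, m2, m3, m4, m5, if_true, if_false, freq01, freq02, freq03]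
      field_simp
      ring
    have h0 : ∀ e, 0 ≤ wt N e := by
      intro e
      unfold wt
      split_ifs
      · have := hf e
        positivity
      · exact le_rfl
    refine ⟨fun e => ⟨h0 e, ?_⟩, hsum⟩
    rw [← hsum]
    exact Finset.single_le_sum (fun e _ => h0 e) (Finset.mem_univ e)
  refine ⟨⟨wt N, 1 / (3 / 4 + 1 / (N : ℝ)), hwt, ⟨⟨{e01}, max01, ?_⟩, ?_⟩, ?_⟩, ?_⟩
  · have m1 : (0 : Fin 5) ∈ (e01 : Sym2 (Fin 5)) := by decide
    rw [Finset.sum_singleton]
    simp only [wt, m1, if_true, freq01]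
    field_simp
  · rintro s ⟨M, hM, rfl⟩
    have hone : ∀ e ∈ M, (0 : Fin 5) ∈ (e : Sym2 (Fin 5)) → ∀ e' ∈ M,
        (0 : Fin 5) ∈ (e' : Sym2 (Fin 5)) → e = e' := by
      intro e he h e' he' h'
      by_contra hne
      exact hM.1 e he e' he' hne 0 ⟨h, h'⟩
    have hval : ∀ e : bull.edgeSet, (0 : Fin 5) ∈ (e : Sym2 (Fin 5)) →
        wt N e * (freq N e : ℝ) = 1 / (3 / 4 + 1 / (N : ℝ)) := by
      intro e h
      have := (hf e).ne'
      simp only [wt, h, if_true]
      field_simp
    have hval' : ∀ e : bull.edgeSet, (0 : Fin 5) ∉ (e : Sym2 (Fin 5)) → wt N e * (freq N e : ℝ) = 0 := by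
      intro e h
      simp only [wt, h, if_false, zero_mul]
    by_cases hex : ∃ e ∈ M, (0 : Fin 5) ∈ (e : Sym2 (Fin 5))
    · obtain ⟨e, he, h0⟩ := hex
      rw [Finset.sum_eq_single_of_mem e he, hval e h0]
      intro e' he' hne
      exact hval' e' (fun h' => hne (hone e' he' h' e he h0))
    · push Not at hex
      rw [Finset.sum_eq_zero (fun e he => hval' e (hex e he))]
      positivity
  · rw [one_div_one_div]
  · rintro r ⟨z, s, hz, hs, rfl⟩
    have := upper hN hz hs
    have hs0 : 0 < s := by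
      by_contra h
      push Not at h
      nlinarith [mul_nonpos_of_nonneg_of_nonpos hD.le h]
    rw [div_le_iff₀ hs0]
    exact this

/-- For every `ε > 0` there is an instance `(P, R, f)`, with `P` a finite set, `R` nonempty and all
frequencies at least `1`, whose poly density is less than `3 / 4 + ε` and which is not
schedulable. -/
theorem result : ∀ ε : ℝ, 0 < ε → ∃ (n : ℕ) (G : SimpleGraph (Fin n)) (_ : Fintype G.edgeSet)
    (f : G.edgeSet → ℕ), G.edgeSet.Nonempty ∧ (∀ e, 1 ≤ f e) ∧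
      (∃ d, IsPolyDensity G f d ∧ d < 3 / 4 + ε) ∧ ¬ Schedulable G f := by
  intro ε hε
  obtain ⟨N, hN⟩ := exists_nat_gt (1 / ε)
  have hN0 : (0 : ℝ) < N := lt_trans (by positivity) hN
  have hN1 : 1 ≤ N := by exact_mod_cast hN0
  refine ⟨5, bull, inferInstance, freq N, ⟨e01, e01.2⟩, ?_, ⟨_, isPolyDensity hN1, ?_⟩,
    not_schedulable N⟩
  · intro e
    rcases cases_edge e with h | h | h | h | h <;> subst h
    · rw [freq01]; exact hN1
    · rw [freq02]; norm_num
    · rw [freq12]; norm_num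
    · rw [freq03]; norm_num
    · rw [freq14]; norm_num
  · have : 1 / (N : ℝ) < ε := by
      rw [div_lt_iff₀ hN0]
      rw [div_lt_iff₀ hε] at hN
      linarith
    linarith

end Pool.Agent.Results.MP_90a930_lc.PolyDensityThreshold
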